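import Pool.Agent.W34.GB.Stm
import Pool.Agent.H336R2.HD.A1
import Pool.Agent.H336R2.HD.A5

/-! Part N6 of the project GZ (adapted from `H397R2/QG/H6pre`): non-vanishing of the determinant. -/

set_option linter.all false

open Polynomial Pool.Agent.H337R2 Filter Topology

namespace Pool.Agent.W918.GZ

open Pool.Agent.W34.GB

noncomputable section

/-! ### auxiliary lemmas -/

/-- a nonzero rational is a `p`-adic unit for large `p` -/
lemma H6_unit (x : ℚ) (hx : x ≠ 0) : ∃ p0 : ℕ, ∀ p : ℕ, p0 ≤ p → p.Prime → padicNorm p x = 1 := by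
  refine ⟨x.num.natAbs + x.den + 1, fun p hp hpp => ?_⟩
  have : Fact p.Prime := ⟨hpp⟩
  have h1 : padicNorm p ((x.num : ℤ) : ℚ) = 1 := by
    rw [padicNorm.int_eq_one_iff]
    intro h
    have h2 : p ∣ x.num.natAbs := Int.natCast_dvd.1 h
    have h3 : x.num.natAbs ≠ 0 := by
      rw [Int.natAbs_ne_zero]
      exact Rat.num_ne_zero.2 hx
    have := Nat.le_of_dvd (Nat.pos_of_ne_zero h3) h2
    omega
  have h2 : padicNorm p ((x.den : ℕ) : ℚ) = 1 := by
    rw [padicNorm.nat_eq_one_iff]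
    intro h
    have := Nat.le_of_dvd x.den_pos h
    omega
  have h3 : x = (x.num : ℚ) / (x.den : ℚ) := (Rat.num_div_den x).symm
  rw [h3, padicNorm.div, h1, h2, div_one]

lemma H6_int (x : ℚ) : ∃ p0 : ℕ, ∀ p : ℕ, p0 ≤ p → p.Prime → padicNorm p x ≤ 1 := by
  by_cases hx : x = 0
  · refine ⟨0, fun p _ hpp => ?_⟩
    have : Fact p.Prime := ⟨hpp⟩
    rw [hx]
    simp
  · obtain ⟨p0, h⟩ := H6_unit x hx
    exact ⟨p0, fun p hp hpp => (h p hp hpp).le⟩

lemma unit_fin {β : Type} (S : Finset β) (f : β → ℚ) (hf : ∀ x ∈ S, f x ≠ 0) :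
    ∃ p0 : ℕ, ∀ x ∈ S, ∀ p : ℕ, p0 ≤ p → p.Prime → padicNorm p (f x) = 1 := by
  have h : ∀ x : β, ∃ p0 : ℕ, x ∈ S → ∀ p : ℕ, p0 ≤ p → p.Prime → padicNorm p (f x) = 1 := by
    intro x
    by_cases hx : x ∈ S
    · obtain ⟨p0, h⟩ := H6_unit (f x) (hf x hx)
      exact ⟨p0, fun _ => h⟩
    · exact ⟨0, fun h => absurd h hx⟩
  choose g hg using h
  exact ⟨S.sup g, fun x hx p hp hpp => hg x hx p ((Finset.le_sup hx).trans hp) hpp⟩

lemma int_fin {β : Type} (S : Finset β) (f : β → ℚ) :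
    ∃ p0 : ℕ, ∀ x ∈ S, ∀ p : ℕ, p0 ≤ p → p.Prime → padicNorm p (f x) ≤ 1 := by
  choose g hg using fun x : β => H6_int (f x)
  exact ⟨S.sup g, fun x hx p hp hpp => hg x p ((Finset.le_sup hx).trans hp) hpp⟩

/-- the test polynomials -/
def H6_P (p r l : ℕ) : ℚ[X] :=
  (X + C (r : ℚ)) ^ l * oth p r 3

lemma H6_P_natDegree (p r l : ℕ) (hr1 : 1 ≤ r) (hr2 : r ≤ p) (hl : l < 3) :
    (H6_P p r l).natDegree < 3 * p := by
  have h1 : ((X + C (r : ℚ)) ^ l : ℚ[X]).natDegree ≤ l := by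
    refine natDegree_pow_le.trans ?_
    rw [natDegree_X_add_C, mul_one]
  have h2 : (oth p r 3).natDegree ≤ 3 * (p - 1) := by
    unfold oth
    refine (natDegree_prod_le _ _).trans ?_
    have h3 : ∀ r' ∈ (Finset.Icc 1 p).erase r, ((X + C (r' : ℚ)) ^ 3 : ℚ[X]).natDegree ≤ 3 := by
      intro r' _
      refine natDegree_pow_le.trans ?_
      rw [natDegree_X_add_C]
    refine (Finset.sum_le_sum h3).trans ?_
    rw [Finset.sum_const, Finset.card_erase_of_mem, Nat.card_Icc, smul_eq_mul]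
    · omega
    · rw [Finset.mem_Icc]
      omega
  unfold H6_P
  refine (natDegree_mul_le).trans_lt ?_
  omega

lemma H6_P_mul (p r l l' : ℕ) : H6_P p r l * H6_P p r l' =
    (X + C (r : ℚ)) ^ (l + l') * oth p r 6 := by
  unfold H6_P
  rw [pow_add]
  have h : oth p r 6 = oth p r 3 * oth p r 3 := by
    unfold oth
    rw [← Finset.prod_mul_distrib]
    refine Finset.prod_congr rfl fun r' _ => ?_
    rw [← pow_add]
  rw [h]
  ring

/-- determinant after scaling of rows and columns -/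
lemma H6_det_scale {α : Type} [Fintype α] [DecidableEq α] (c : α → ℚ) (M : Matrix α α ℚ) :
    (Matrix.of fun a b => c a * c b * M a b).det = (∏ a, c a) * ((∏ a, c a) * M.det) := by
  have h1 : (Matrix.of fun a b => c a * c b * M a b) =
      Matrix.of fun a b => c a * (Matrix.of fun a b => c b * M a b) a b := by
    ext a b
    simp only [Matrix.of_apply]
    ring
  rw [h1, Matrix.det_mul_column, Matrix.det_mul_row]

/-- the local configurations -/
def Cf (w : ℚ) : Finset (ℕ × ℕ × ℕ × ℕ) :=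
  if w = -3 then {(3, 0, 0, 0), (3, 0, 1, 0), (3, 0, 1, 1), (3, 1, 1, 1)}
  else {(1, 0, 0, 0), (1, 1, 0, 0), (1, 1, 1, 0), (1, 1, 1, 1)}

lemma cf_mem (σ : ℕ) (w : ℚ) (hσ : σ = 1 ∨ σ = 3) (p : ℕ) (hp : p.Prime) (hp50 : 50 ≤ p)
    (hc : if w = -3 then p % 4 ≠ σ else p % 4 = σ) (r : ℕ) (hr1 : 1 ≤ r) (hr2 : r ≤ p) :
    (mm σ p, d1 σ p r, d2 p r, d3 p r) ∈ Cf w := by
  have hodd : p % 2 = 1 := by
    rcases hp.eq_two_or_odd with h | h
    · omega
    · exact h
  unfold Cf
  by_cases hw : w = -3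
  · rw [if_pos hw] at hc
    rw [if_pos hw]
    have hm : mm σ p = 3 := by
      unfold mm
      rw [if_neg hc]
    have hj : j0 σ p = (3 * p - σ) / 4 := by
      unfold j0
      rw [if_neg hc]
    rw [hm]
    have h1 : d1 σ p r = if (3 * p - σ) / 4 < r then 1 else 0 := by
      unfold d1
      rw [hj]
    rw [h1]
    unfold d2 d3 Pool.Agent.W34.GB.KK
    simp only [Finset.mem_insert, Finset.mem_singleton, Prod.mk.injEq, true_and]
    split_ifs <;> first | omega | (simp; done) | (exfalso; omega)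
  · rw [if_neg hw] at hc
    rw [if_neg hw]
    have hm : mm σ p = 1 := by
      unfold mm
      rw [if_pos hc]
    have hj : j0 σ p = (p - σ) / 4 := by
      unfold j0
      rw [if_pos hc]
    rw [hm]
    have h1 : d1 σ p r = if (p - σ) / 4 < r then 1 else 0 := by
      unfold d1
      rw [hj]
    rw [h1]
    unfold d2 d3 Pool.Agent.W34.GB.KK
    simp only [Finset.mem_insert, Finset.mem_singleton, Prod.mk.injEq, true_and]
    split_ifs <;> first | omega | (simp; done) | (exfalso; omega)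

lemma cf_ne (hN : N5s) (w : ℚ) (x : ℕ × ℕ × ℕ × ℕ) (hx : x ∈ Cf w) :
    Dl x.1 x.2.1 x.2.2.1 x.2.2.2 w ≠ 0 := by
  unfold Cf at hx
  by_cases hw : w = -3
  · rw [if_pos hw] at hx
    obtain ⟨a1, a2, a3, a4⟩ := hN.2
    subst hw
    simp only [Finset.mem_insert, Finset.mem_singleton] at hx
    rcases hx with rfl | rfl | rfl | rfl
    · exact a1
    · exact a2
    · exact a3
    · exact a4
  · rw [if_neg hw] at hx
    obtain ⟨a1, a2, a3, a4⟩ := hN.1 w hw
    simp only [Finset.mem_insert, Finset.mem_singleton] at hx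
    rcases hx with rfl | rfl | rfl | rfl
    · exact a1
    · exact a2
    · exact a3
    · exact a4

theorem NV_of (hN3 : N3s) (hN4 : N4s) (hN5 : N5s) : NV := by
  intro σ w hσ
  obtain ⟨p1, hp1⟩ := unit_fin (Cf w) (fun x => Dl x.1 x.2.1 x.2.2.1 x.2.2.2 w) (fun x hx => cf_ne hN5 w x hx)
  obtain ⟨p2, hp2⟩ := int_fin (Cf w ×ˢ Finset.range 5) (fun x => Fm x.1.1 x.1.2.1 x.1.2.2.1 x.1.2.2.2 w x.2)
  obtain ⟨p3, hp3⟩ := H6_int w
  refine ⟨p1 + p2 + p3 + 50, fun p hp hpp hc u v hup hvp => ?_⟩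
  have : Fact p.Prime := ⟨hpp⟩
  have hp50 : 50 ≤ p := by omega
  have hwp : padicNorm p w ≤ 1 := hp3 p (by omega) hpp
  -- choose the units
  have hw : ∀ r : Fin p, ∃ c : ℚ, padicNorm p c = 1 ∧ ∀ e : ℕ, e ≤ 4 →
      padicNorm p ((p : ℚ) ^ (6 - (e : ℤ)) * NL p σ w u v ((X + C ((r.1 + 1 : ℕ) : ℚ)) ^ e * oth p (r.1 + 1) 6) -
        c * Fm (mm σ p) (d1 σ p (r.1 + 1)) (d2 p (r.1 + 1)) (d3 p (r.1 + 1)) w e) ≤ (p : ℚ)⁻¹ := by
    intro r
    have hr := r.2
    exact hN3 p hp50 σ hσ w u v hwp hup hvp (r.1 + 1) (by omega) (by omega)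
  choose cw hw1 hw2 using hw
  have hcf : ∀ r : Fin p, (mm σ p, d1 σ p (r.1 + 1), d2 p (r.1 + 1), d3 p (r.1 + 1)) ∈ Cf w := by
    intro r
    have hr := r.2
    exact cf_mem σ w hσ p hpp hp50 hc (r.1 + 1) (by omega) (by omega)
  -- the Gram matrix
  set G : Matrix (Fin 3 × Fin p) (Fin 3 × Fin p) ℚ :=
    Matrix.of fun a b => NL p σ w u v (H6_P p (a.2.1 + 1) a.1.1 * H6_P p (b.2.1 + 1) b.1.1) with hG
  have key : G.det ≠ 0 := by
    set c : Fin 3 × Fin p → ℚ := fun a => (p : ℚ) ^ (3 - (a.1.1 : ℤ)) with hc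
    set M : Matrix (Fin 3 × Fin p) (Fin 3 × Fin p) ℚ :=
      Matrix.of fun a b => c a * c b * G a b with hM
    set Bl : Fin p → Matrix (Fin 3) (Fin 3) ℚ := fun r =>
      Matrix.of fun l l' => cw r * Fm (mm σ p) (d1 σ p (r.1 + 1)) (d2 p (r.1 + 1)) (d3 p (r.1 + 1)) w (l.1 + l'.1)
      with hBl
    have hp0 : (p : ℚ) ≠ 0 := by exact_mod_cast hpp.ne_zero
    have hcc : ∀ a b : Fin 3 × Fin p, c a * c b = (p : ℚ) ^ (6 - (a.1.1 : ℤ) - (b.1.1 : ℤ)) := by
      intro a b
      simp only [hc]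
      rw [← zpow_add₀ hp0]
      congr 1
      ring
    have hM0 : M.det ≠ 0 := by
      apply Pool.Agent.H336R2.HD.A6_det_congr p M (Matrix.blockDiagonal Bl)
      · intro a b
        rw [Matrix.blockDiagonal_apply]
        split_ifs with hab
        · simp only [hBl, Matrix.of_apply]
          have ha := a.1.2
          have hb := b.1.2
          have h1 : padicNorm p (Fm (mm σ p) (d1 σ p (a.2.1 + 1)) (d2 p (a.2.1 + 1)) (d3 p (a.2.1 + 1)) w
              (a.1.1 + b.1.1)) ≤ 1 :=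
            hp2 ((mm σ p, d1 σ p (a.2.1 + 1), d2 p (a.2.1 + 1), d3 p (a.2.1 + 1)), a.1.1 + b.1.1)
              (Finset.mem_product.2 ⟨hcf a.2, Finset.mem_range.2 (by show a.1.1 + b.1.1 < 5; omega)⟩) p (by omega) hpp
          rw [padicNorm.mul, hw1, one_mul]
          exact h1
        · simp
      · intro a b
        rw [Matrix.blockDiagonal_apply]
        have ha := a.1.2
        have hb := b.1.2
        have ha2 := a.2.2
        have hb2 := b.2.2
        have hMab : M a b = (p : ℚ) ^ (6 - (a.1.1 : ℤ) - (b.1.1 : ℤ)) *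
            NL p σ w u v (H6_P p (a.2.1 + 1) a.1.1 * H6_P p (b.2.1 + 1) b.1.1) := by
          simp only [hM, hG, Matrix.of_apply]
          rw [hcc]
        split_ifs with hab
        · rw [hMab, ← hab, H6_P_mul]
          have h1 := hw2 a.2 (a.1.1 + b.1.1) (by omega)
          have h2 : (6 - ((a.1.1 + b.1.1 : ℕ) : ℤ)) = 6 - (a.1.1 : ℤ) - (b.1.1 : ℤ) := by
            push_cast
            ring
          rw [h2] at h1
          exact h1
        · rw [hMab, sub_zero]
          apply hN4 p hp50 σ hσ w u v hwp hup hvp (a.2.1 + 1) (b.2.1 + 1) a.1.1 b.1.1 (by omega) (by omega)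
            (by omega) (by omega) _ ha hb
          intro h1
          apply hab
          ext
          omega
      · rw [Matrix.det_blockDiagonal]
        have hprod : ∀ (n : ℕ) (f : Fin n → ℚ), (∀ i, padicNorm p (f i) = 1) → padicNorm p (∏ i, f i) = 1 := by
          intro n f hf
          have h4 : padicNorm p (∏ i, f i) = ∏ i, padicNorm p (f i) := by
            exact map_prod (⟨⟨fun x => padicNorm p x, padicNorm.one⟩, fun x y => padicNorm.mul x y⟩ :
              ℚ →* ℚ) f Finset.univ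
          rw [h4]
          exact Finset.prod_eq_one fun i _ => hf i
        have hdet : ∀ r : Fin p, padicNorm p (Bl r).det = 1 := by
          intro r
          have h1 : Bl r = Matrix.of fun l l' => (cw r) *
              (Matrix.of fun l l' : Fin 3 => Fm (mm σ p) (d1 σ p (r.1 + 1)) (d2 p (r.1 + 1)) (d3 p (r.1 + 1)) w
                (l.1 + l'.1)) l l' := by
            ext l l'
            simp only [hBl, Matrix.of_apply]
          have h2 := hp1 _ (hcf r) p (by omega) hpp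
          rw [h1, Matrix.det_mul_column (fun _ => cw r), padicNorm.mul, hprod 3 _ (fun _ => hw1 r), one_mul]
          exact h2
        exact hprod p _ hdet
    intro h0
    apply hM0
    rw [hM, H6_det_scale, h0, mul_zero, mul_zero]
  -- conclusion
  have hcard : Fintype.card (Fin 3 × Fin p) = Fintype.card (Fin (3 * p)) := by
    simp only [Fintype.card_prod, Fintype.card_fin]
  obtain ⟨e⟩ := Fintype.card_eq.1 hcard
  unfold DET
  apply Pool.Agent.H336R2.HD.A2_gram_ne (NL p σ w u v) (3 * p) e (fun a => H6_P p (a.2.1 + 1) a.1.1)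
  · intro a
    have ha := a.1.2
    have ha2 := a.2.2
    exact H6_P_natDegree p _ _ (by omega) (by omega) ha
  · exact key

end

end Pool.Agent.W918.GZ
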